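import Pool.Agent.Helper40_Eng.Ssl

/-!
helper40, squad ENG (MP_da8eb3_al), module LEV: `d(PSL(n,q))` is even, `n ≥ 3`, `q` odd.
-/

set_option autoImplicit false

namespace Pool.Agent.Eng.H40

open Matrix Pool.Agent.Eng

variable {F : Type} [Field F]

/-- the unipotent element -/
def uv (v : Fin 2 → F) : Matrix (Fin 3) (Fin 3) F := !![1, 0, v 0; 0, 1, v 1; 0, 0, 1]

/-- the element of trace 3 -/
def y3 : Matrix (Fin 3) (Fin 3) F := !![0, -1, 0; 1, 3, 0; 0, 0, 1]

/-- its inverse -/
def z3 : Matrix (Fin 3) (Fin 3) F := !![3, 1, 0; -1, 0, 0; 0, 0, 1]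

theorem uv_mul (v w : Fin 2 → F) : uv v * uv w = uv (v + w) := by
  unfold uv
  ext i j
  fin_cases i <;> fin_cases j <;> simp [Matrix.mul_apply, Fin.sum_univ_three] <;> ring

theorem uv_zero : uv (0 : Fin 2 → F) = 1 := by
  unfold uv
  ext i j
  fin_cases i <;> fin_cases j <;> simp

theorem det_uv (v : Fin 2 → F) : (uv v).det = 1 := by
  unfold uv
  simp [Matrix.det_fin_three]

theorem det_y3 : (y3 : Matrix (Fin 3) (Fin 3) F).det = 1 := by
  unfold y3
  simp [Matrix.det_fin_three]

theorem z3_y3 : (z3 : Matrix (Fin 3) (Fin 3) F) * y3 = 1 := by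
  unfold y3 z3
  ext i j
  fin_cases i <;> fin_cases j <;> simp [Matrix.mul_apply, Fin.sum_univ_three] <;> ring

/-- the action on the unipotent elements -/
def tm : Matrix (Fin 2) (Fin 2) F := !![3, 1; -1, 0]

theorem conj_uv (v : Fin 2 → F) : z3 * uv v * y3 = uv (tm *ᵥ v) := by
  unfold y3 z3 uv tm
  ext i j
  fin_cases i <;> fin_cases j <;>
    simp [Matrix.mul_apply, Fin.sum_univ_three, Matrix.mulVec, dotProduct, Fin.sum_univ_two] <;>
    ring

/-- LEV -/
theorem lev (hab : AbStmt) : LevStmt := by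
  intro F _ _ n h2 hn d hd hlaw
  let e : Fin 3 ≃ Fin 3 := Equiv.refl _
  let C := cor e hn F
  let f : Multiplicative (Fin 2 → F) →* Matrix.SpecialLinearGroup (Fin n) F :=
    { toFun := fun v => ⟨C (uv v.toAdd), by
        change (cor e hn F _).det = 1
        rw [det_cor, det_uv]⟩
      map_one' := by
        apply Subtype.ext
        change C (uv 0) = 1
        rw [uv_zero, map_one]
      map_mul' := by
        intro x y
        apply Subtype.ext
        change C (uv (x.toAdd + y.toAdd)) = C (uv x.toAdd) * C (uv y.toAdd)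
        rw [← map_mul, uv_mul] }
  let y : Matrix.SpecialLinearGroup (Fin n) F := ⟨C y3, by
        change (cor e hn F _).det = 1
        rw [det_cor, det_y3]⟩
  let T : AddMonoid.End (Fin 2 → F) := ((Matrix.mulVecLin (tm : Matrix (Fin 2) (Fin 2) F)).toAddMonoidHom)
  have hT : ∀ v, T v = tm *ᵥ v := fun v => rfl
  obtain ⟨r, hr⟩ := hab (Matrix.SpecialLinearGroup (Fin n) F) (Subgroup.center _) (Fin 2 → F)
    f y T (by
      intro v hv
      obtain ⟨s, -, hs⟩ := Matrix.SpecialLinearGroup.mem_center_iff.1 hv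
      have h1 : uv v = s • 1 := cor_scalar e hn F (uv v) s hs
      have h3 := congrFun (congrFun h1 0) 2
      have h4 := congrFun (congrFun h1 1) 2
      simp [uv] at h3 h4
      funext i
      fin_cases i
      · exact h3
      · exact h4) (by
      intro v
      have h1 : f (Multiplicative.ofAdd v) * y = y * f (Multiplicative.ofAdd (T v)) := by
        apply Subtype.ext
        change C (uv v) * C y3 = C y3 * C (uv (T v))
        rw [← map_mul, ← map_mul, hT, ← conj_uv]
        congr 1
        have h5 : (y3 : Matrix (Fin 3) (Fin 3) F) * z3 = 1 := mul_eq_one_comm.1 z3_y3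
        rw [← mul_assoc, ← mul_assoc, h5, one_mul]
      rw [mul_assoc, h1, ← mul_assoc, inv_mul_cancel, one_mul]) d hlaw
  -- powers of `T - 1`
  let A : Matrix (Fin 2) (Fin 2) F := tm - 1
  have hpow : ∀ (k : ℕ) (v : Fin 2 → F), ((T - 1) ^ k) v = (A ^ k) *ᵥ v := by
    intro k
    induction k with
    | zero => intro v; simp
    | succ k ih =>
      intro v
      rw [pow_succ', pow_succ']
      change (T - 1) (((T - 1) ^ k) v) = _
      rw [ih, ← Matrix.mulVec_mulVec]
      change T _ - _ = _
      rw [hT, Matrix.sub_mulVec, Matrix.one_mulVec]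
      rfl
  have hA : A ^ (r + d) = A ^ r := by
    apply Matrix.mulVec_injective
    funext v
    rw [← hpow, ← hpow, hr]
  have hdet : A.det = -1 := by
    simp [A, tm, Matrix.det_fin_two, Matrix.one_apply]
    ring
  have h3 := congrArg Matrix.det hA
  rw [Matrix.det_pow, Matrix.det_pow, hdet, pow_add] at h3
  have h4 : (-1 : F) ^ d = 1 := by
    have h5 : (-1 : F) ^ r ≠ 0 := pow_ne_zero _ (by simp)
    exact mul_left_cancel₀ h5 (by rw [h3, mul_one])
  rcases Nat.even_or_odd d with h | h
  · exact h.two_dvd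
  · exfalso
    rw [h.neg_one_pow] at h4
    apply h2
    linear_combination -h4

end Pool.Agent.Eng.H40
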