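import Pool.Agent.Helper6_Eng.Stmts

/-!
helper40, squad ENG (MP_da8eb3_al), module SSL: `Sp(2m,F)` inside `SL(n,F)`.
-/

set_option autoImplicit false

namespace Pool.Agent.Eng.H40

open Matrix Pool.Agent.Eng

/-- the index equivalence -/
def ix {a n : ℕ} (ι : Type) [Fintype ι] (e : ι ≃ Fin a) (h : a ≤ n) : ι ⊕ Fin (n - a) ≃ Fin n :=
  (e.sumCongr (Equiv.refl _)).trans (finSumFinEquiv.trans (finCongr (by omega)))

/-- a matrix group embedded in the upper left corner -/
def cor {ι : Type} [Fintype ι] [DecidableEq ι] {a n : ℕ} (e : ι ≃ Fin a) (h : a ≤ n)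
    (F : Type) [Field F] : Matrix ι ι F →* Matrix (Fin n) (Fin n) F where
  toFun g := Matrix.reindex (ix ι e h) (ix ι e h) (fromBlocks g 0 0 1)
  map_one' := by
    rw [fromBlocks_one]
    simp
  map_mul' x y := by
    simp only [reindex_apply]
    rw [Matrix.submatrix_mul_equiv, fromBlocks_multiply]
    simp

theorem det_cor {ι : Type} [Fintype ι] [DecidableEq ι] {a n : ℕ} (e : ι ≃ Fin a) (h : a ≤ n)
    (F : Type) [Field F] (g : Matrix ι ι F) : (cor e h F g).det = g.det := by
  change (Matrix.reindex (ix ι e h) (ix ι e h) (fromBlocks g 0 0 1)).det = g.det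
  rw [det_reindex_self, det_fromBlocks_zero₂₁, det_one, mul_one]

/-- scalar in the big group implies scalar in the small one -/
theorem cor_scalar {ι : Type} [Fintype ι] [DecidableEq ι] {a n : ℕ} (e : ι ≃ Fin a) (h : a ≤ n)
    (F : Type) [Field F] (g : Matrix ι ι F) (r : F) (hr : scalar (Fin n) r = cor e h F g) :
    g = r • (1 : Matrix ι ι F) := by
  have h1 : fromBlocks g 0 0 1 = r • (1 : Matrix (ι ⊕ Fin (n - a)) (ι ⊕ Fin (n - a)) F) := by
    have h2 : Matrix.reindex (ix ι e h) (ix ι e h) (fromBlocks g 0 0 1)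
        = Matrix.reindex (ix ι e h) (ix ι e h)
          (r • (1 : Matrix (ι ⊕ Fin (n - a)) (ι ⊕ Fin (n - a)) F)) := by
      change cor e h F g = _
      rw [← hr]
      ext i j
      simp [Matrix.one_apply, Matrix.diagonal_apply]
    exact (Matrix.reindex _ _).injective h2
  ext i j
  have := congrFun (congrFun h1 (Sum.inl i)) (Sum.inl j)
  simpa [Matrix.one_apply] using this

/-- SSL -/
theorem ssl (hpd : PdCenStmt) (hscm : SpCenterMatStmt) : SpSlStmt := by
  intro F _ m n N hm hmn hPD
  have e : Fin m ⊕ Fin m ≃ Fin (2 * m) := finSumFinEquiv.trans (finCongr (by omega))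
  let f : Sp m F →* SpecialLinearGroup (Fin n) F :=
    { toFun := fun g => ⟨cor e hmn F g.1, by
        rw [det_cor]; exact SymplecticGroup.det_eq_one g.2⟩
      map_one' := by
        apply Subtype.ext
        exact map_one (cor e hmn F)
      map_mul' := by
        intro x y
        apply Subtype.ext
        exact map_mul (cor e hmn F) x.1 y.1 }
  refine hpd (Sp m F) (SpecialLinearGroup (Fin n) F) f (Subgroup.center _)
    (Subgroup.center _) N ?_ hPD
  intro g hg
  obtain ⟨r, -, hr⟩ := Matrix.SpecialLinearGroup.mem_center_iff.1 hg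
  have h1 : (g : Matrix (Fin m ⊕ Fin m) (Fin m ⊕ Fin m) F) = r • 1 :=
    cor_scalar e hmn F g.1 r hr
  have h2 := (SymplecticGroup.mem_iff.1 g.2)
  rw [h1] at h2
  have h3 : r * r = 1 := by
    have h4 := congrFun (congrFun h2 (Sum.inl ⟨0, hm⟩)) (Sum.inr ⟨0, hm⟩)
    simp [J] at h4
    linear_combination h4
  rw [hscm, h1]
  have h5 : (r - 1) * (r + 1) = 0 := by linear_combination h3
  rcases mul_eq_zero.1 h5 with h6 | h6
  · left
    rw [sub_eq_zero.1 h6, one_smul]
  · right
    rw [eq_neg_of_add_eq_zero_left h6]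
    simp

end Pool.Agent.Eng.H40
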